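import Mathlib

/-! # The main induction for S12121 (proof of helper73; Lean helper57) -/

set_option autoImplicit false

namespace Pool.Agent.M57

open Relation

variable {V : Type*}

theorem rtg_mono {r s : V → V → Prop} (h : ∀ a b, r a b → s a b) {a b : V}
    (hab : ReflTransGen r a b) : ReflTransGen s a b := by
  induction hab with
  | refl => exact ReflTransGen.refl
  | tail _ h2 ih => exact ih.tail (h _ _ h2)

theorem tg_mono {r s : V → V → Prop} (h : ∀ a b, r a b → s a b) {a b : V}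
    (hab : TransGen r a b) : TransGen s a b := by
  induction hab with
  | single h1 => exact TransGen.single (h _ _ h1)
  | tail _ h2 ih => exact ih.tail (h _ _ h2)

/-- every vertex of `X` is reached from `Q` by a path of `E` inside `S` meeting `X` only in its end -/
def Acc (E : V → V → Prop) (S Q X : Set V) : Prop :=
  ∀ v ∈ X, ∃ q ∈ Q, ReflTransGen (fun a b => E a b ∧ a ∈ S ∧ b ∈ S ∧ a ∉ X) q v

theorem Acc.subset {E : V → V → Prop} {S Q X Y : Set V} (h : Acc E S Q X) (hY : Y ⊆ X) :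
    Acc E S Q Y := by
  intro v hv
  obtain ⟨q, hq, hp⟩ := h v (hY hv)
  refine ⟨q, hq, ?_⟩
  exact rtg_mono (fun a b h => ⟨h.1, h.2.1, h.2.2.1, fun ha => h.2.2.2 (hY ha)⟩) hp

/-- The main induction: an acyclic colouring of `S` with `Fin 3` avoiding the colour `2` on `Q`. -/
theorem main_ind [Finite V] (E : V → V → Prop) (hloop : ∀ v, ¬ E v v) :
    ∀ (n : ℕ) (S Q : Set V), S.ncard = n → Q ⊆ S →
      (∀ v ∈ S, ∃ q ∈ Q, ReflTransGen (fun a b => E a b ∧ a ∈ S ∧ b ∈ S) q v) →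
      (∀ X : Set V, X ⊆ S → X.Nonempty → Acc E S Q X →
        ∃ v ∈ X, ∀ a ∈ X, ∀ b ∈ X, E v a → E v b → a = b) →
      (∀ v ∈ S, ∀ u, ¬ TransGen (fun a b => E a b ∧ (a ∈ S ∧ E v a) ∧ (b ∈ S ∧ E v b)) u u) →
      ∃ f : V → Fin 3, (∀ q ∈ Q, f q ≠ 2) ∧
        ∀ u, ¬ TransGen (fun a b => (E a b ∧ a ∈ S ∧ b ∈ S) ∧ f a = f b) u u := by
  classical
  intro n
  induction n using Nat.strong_induction_on with
  | _ n ih =>
  intro S Q hn hQS hreach hacc hN
  rcases S.eq_empty_or_nonempty with rfl | hne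
  · refine ⟨fun _ => 0, fun q _ => by simp, ?_⟩
    intro u hu
    cases hu with
    | single h => exact h.1.2.1
    | tail _ h => exact h.1.2.1
  obtain ⟨v0, hv0⟩ := hne
  obtain ⟨q0, hq0, -⟩ := hreach v0 hv0
  obtain ⟨q, hq, hq1⟩ := hacc Q hQS ⟨q0, hq0⟩ (fun v hv => ⟨v, hv, ReflTransGen.refl⟩)
  have hqS := hQS hq
  let Ch : Set V := {c | c ∈ S ∧ E q c ∧ c ∉ Q}
  let S' : Set V := {v | v ∈ S ∧ v ≠ q ∧ v ∉ Ch}
  let Q' : Set V := {v | v ∈ S' ∧ (v ∈ Q ∨ ∃ c ∈ Ch, E c v)}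
  have hS'S : S' ⊆ S := fun v hv => hv.1
  have hlt : S'.ncard < n := by
    rw [← hn]
    refine Set.ncard_lt_ncard ⟨hS'S, fun h => ?_⟩ (Set.toFinite S)
    exact (h hqS).2.1 rfl
  have hcase : ∀ w, w ∈ S → w = q ∨ w ∈ Ch ∨ w ∈ S' := by
    intro w hw
    by_cases h1 : w = q
    · exact Or.inl h1
    by_cases h2 : w ∈ Ch
    · exact Or.inr (Or.inl h2)
    exact Or.inr (Or.inr ⟨hw, h1, h2⟩)
  -- reachability in the smaller instance
  have hreach' : ∀ v ∈ S', ∃ q' ∈ Q', ReflTransGen (fun a b => E a b ∧ a ∈ S' ∧ b ∈ S') q' v := by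
    intro v hv
    obtain ⟨p, hp, hpv⟩ := hreach v hv.1
    induction hpv with
    | refl => exact ⟨p, ⟨hv, Or.inl hp⟩, ReflTransGen.refl⟩
    | tail _ h ih2 =>
      rename_i b c hpb
      rcases hcase b h.2.1 with e | e | e
      · subst e
        have hcQ : c ∈ Q := by
          by_contra hc
          exact hv.2.2 ⟨hv.1, h.1, hc⟩
        exact ⟨c, ⟨hv, Or.inl hcQ⟩, ReflTransGen.refl⟩
      · exact ⟨c, ⟨hv, Or.inr ⟨b, e, h.1⟩⟩, ReflTransGen.refl⟩
      · obtain ⟨q', hq', hr⟩ := ih2 e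
        exact ⟨q', hq', hr.tail ⟨h.1, e, hv⟩⟩
  have hacc' : ∀ X : Set V, X ⊆ S' → X.Nonempty → Acc E S' Q' X →
      ∃ v ∈ X, ∀ a ∈ X, ∀ b ∈ X, E v a → E v b → a = b := by
    intro X hX hXne hXa
    refine hacc X (fun v hv => (hX hv).1) hXne ?_
    intro v hv
    obtain ⟨q', hq', hr⟩ := hXa v hv
    have hr' : ReflTransGen (fun a b => E a b ∧ a ∈ S ∧ b ∈ S ∧ a ∉ X) q' v :=
      rtg_mono (fun a b h => ⟨h.1, h.2.1.1, h.2.2.1.1, h.2.2.2⟩) hr
    rcases hq'.2 with h | ⟨c, hc, hcq⟩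
    · exact ⟨q', h, hr'⟩
    · refine ⟨q, hq, ?_⟩
      refine ReflTransGen.head (b := c) ⟨hc.2.1, hqS, hc.1, fun h => (hX h).2.1 rfl⟩ ?_
      exact ReflTransGen.head ⟨hcq, hc.1, hq'.1.1, fun h => (hX h).2.2 hc⟩ hr'
  obtain ⟨g, hgQ, hg⟩ := ih _ hlt S' Q' rfl (fun v hv => hv.1) hreach' hacc' (by
    intro v hv u hu
    refine hN v hv.1 u (tg_mono ?_ hu)
    intro a b h
    exact ⟨h.1, ⟨h.2.1.1.1, h.2.1.2⟩, ⟨h.2.2.1.1, h.2.2.2⟩⟩)
  -- the colour of `q`
  have hQS' : ∀ h ∈ Q, h ≠ q → h ∈ Q' := by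
    intro h hh hne
    have : h ∈ S' := ⟨hQS hh, hne, fun hc => hc.2.2 hh⟩
    exact ⟨this, Or.inl hh⟩
  obtain ⟨cq, hcq2, hcq⟩ : ∃ cq : Fin 3, cq ≠ 2 ∧ ∀ h ∈ Q, E q h → g h ≠ cq := by
    by_cases hex : ∃ h ∈ Q, E q h
    · obtain ⟨h, hh, hE⟩ := hex
      have hne : h ≠ q := fun e => hloop q (by rw [e] at hE; exact hE)
      have h2 := hgQ h (hQS' h hh hne)
      have h3 : ∃ c : Fin 3, c ≠ 2 ∧ g h ≠ c := by
        generalize g h = x at h2
        revert h2; revert x; decide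
      obtain ⟨c, hc2, hc⟩ := h3
      refine ⟨c, hc2, fun h' hh' hE' => ?_⟩
      rw [hq1 h' hh' h hh hE' hE]
      exact hc
    · push Not at hex
      exact ⟨0, by decide, fun h hh hE => absurd hE (hex h hh)⟩
  refine ⟨fun v => if v = q then cq else if v ∈ Ch then 2 else g v, ?_, ?_⟩
  · intro p hp
    by_cases e : p = q
    · simp [e, hcq2]
    · have hpc : p ∉ Ch := fun hc => hc.2.2 hp
      simp only [e, if_false, hpc]
      exact hgQ p (hQS' p hp e)
  · set f : V → Fin 3 := fun v => if v = q then cq else if v ∈ Ch then 2 else g v with hf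
    have fq : f q = cq := by simp [hf]
    have fC : ∀ c ∈ Ch, f c = 2 := by
      intro c hc
      have : c ≠ q := fun e => hloop q (by have := hc.2.1; rw [e] at this; exact this)
      simp [hf, this, hc]
    have fS : ∀ v ∈ S', f v = g v := by
      intro v hv
      simp [hf, hv.2.1, hv.2.2]
    have stepq : ∀ w, E q w → w ∈ S → f q ≠ f w := by
      intro w hw hwS e
      have hwq : w ≠ q := fun e => hloop q (by rw [e] at hw; exact hw)
      by_cases hwQ : w ∈ Q
      · have := fS w (hQS' w hwQ hwq).1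
        exact hcq w hwQ hw (by rw [← this, ← e, fq])
      · have := fC w ⟨hwS, hw, hwQ⟩
        exact hcq2 (by rw [← fq, e, this])
    have stepC : ∀ c w, c ∈ Ch → E c w → w ∈ S → f c = f w → w ∈ Ch := by
      intro c w hc hE hwS e
      rw [fC c hc] at e
      rcases hcase w hwS with h | h | h
      · subst h; exact absurd (e.trans fq).symm hcq2
      · exact h
      · exact absurd ((fS w h).symm.trans e.symm) (hgQ w ⟨h, Or.inr ⟨c, hc, hE⟩⟩)
    intro u hu
    have huS : u ∈ S := by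
      cases hu with
      | single h => exact h.1.2.1
      | tail _ h => exact h.1.2.2
    rcases hcase u huS with e | e | e
    · subst e
      obtain ⟨w, hw, -⟩ := (TransGen.head'_iff).1 hu
      exact stepq w hw.1.1 hw.1.2.2 hw.2
    · have key : ∀ w, TransGen (fun a b => (E a b ∧ a ∈ S ∧ b ∈ S) ∧ f a = f b) u w →
          w ∈ Ch ∧ TransGen (fun a b => E a b ∧ (a ∈ S ∧ E q a) ∧ (b ∈ S ∧ E q b)) u w := by
        intro w hw
        induction hw with
        | single h =>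
          have := stepC _ _ e h.1.1 h.1.2.2 h.2
          exact ⟨this, TransGen.single ⟨h.1.1, ⟨e.1, e.2.1⟩, ⟨this.1, this.2.1⟩⟩⟩
        | tail _ h ih2 =>
          have := stepC _ _ ih2.1 h.1.1 h.1.2.2 h.2
          exact ⟨this, ih2.2.tail ⟨h.1.1, ⟨ih2.1.1, ih2.1.2.1⟩, ⟨this.1, this.2.1⟩⟩⟩
      exact hN q hqS u (key u hu).2
    · have key : ∀ w, TransGen (fun a b => (E a b ∧ a ∈ S ∧ b ∈ S) ∧ f a = f b) u w → w ∈ S' →
          TransGen (fun a b => (E a b ∧ a ∈ S' ∧ b ∈ S') ∧ g a = g b) u w := by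
        intro w hw
        induction hw with
        | single h =>
          intro hw
          exact TransGen.single ⟨⟨h.1.1, e, hw⟩, by rw [← fS _ e, ← fS _ hw]; exact h.2⟩
        | tail _ h ih2 =>
          rename_i b c _
          intro hw
          have hb : b ∈ S' := by
            rcases hcase b h.1.2.1 with e2 | e2 | e2
            · subst e2; exact absurd h.2 (stepq _ h.1.1 h.1.2.2)
            · exact absurd (stepC _ _ e2 h.1.1 h.1.2.2 h.2) hw.2.2
            · exact e2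
          exact (ih2 hb).tail ⟨⟨h.1.1, hb, hw⟩, by rw [← fS _ hb, ← fS _ hw]; exact h.2⟩
      exact hg u (key u hu e)

end Pool.Agent.M57
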